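import Mathlib
import Pool.Agent.R877.CY.Final2

/-!
# MP_72c16c_nt: the formula for `B(p²q²)` fails for `p = 19`, `q = 149`

Both `Φ_p Φ_q Φ_{p²q} Φ_{pq²}` and `Φ_p Φ_q Φ_{p²} Φ_{q²}` have height at most `834` for `p = 19`,
`q = 149` (the heights are `801` and `361`), while the divisor
`Φ_p Φ_q Φ_{p²q} Φ_{pq²} Φ_{p²q²}` of `x ^ (p²q²) - 1` has the coefficient `-835` at
`x ^ 1456798`.

The coefficients are read off, by kernel computation, from the values of the polynomials at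
`2 ^ 20` (quotients of products of numbers `2 ^ (20 e) - 1`).
-/

namespace Pool.Agent.Results.MP_72c16c_nt.DisproofAt19And149

open Polynomial

/-- The height: the largest absolute value of a coefficient. -/
def height (f : ℤ[X]) : ℕ := f.support.sup (fun i => (f.coeff i).natAbs)

/-- `B(n)`: the largest height of a divisor of `x ^ n - 1` in `ℤ[x]` (the supremum of a finite set
for `n ≥ 1`). -/
noncomputable def B (n : ℕ) : ℕ := sSup {h : ℕ | ∃ f : ℤ[X], f ∣ X ^ n - 1 ∧ h = height f}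

/-- `Φ_p Φ_q Φ_{p²q} Φ_{pq²}` -/
noncomputable def F₁ (p q : ℕ) : ℤ[X] :=
  cyclotomic p ℤ * cyclotomic q ℤ * cyclotomic (p ^ 2 * q) ℤ * cyclotomic (p * q ^ 2) ℤ

/-- `Φ_p Φ_q Φ_{p²} Φ_{q²}` -/
noncomputable def F₂ (p q : ℕ) : ℤ[X] :=
  cyclotomic p ℤ * cyclotomic q ℤ * cyclotomic (p ^ 2) ℤ * cyclotomic (q ^ 2) ℤ

theorem le_height (f : ℤ[X]) (i : ℕ) : (f.coeff i).natAbs ≤ height f := by
  by_cases h : f.coeff i = 0
  · rw [h]; simp
  · exact Finset.le_sup (f := fun i => (f.coeff i).natAbs) (mem_support_iff.mpr h)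

theorem height_le (f : ℤ[X]) (C : ℕ) (h : ∀ i, (f.coeff i).natAbs ≤ C) : height f ≤ C :=
  Finset.sup_le fun i _ => h i

theorem finite_dvd (n : ℕ) (hn : 0 < n) : {f : ℤ[X] | f ∣ X ^ n - 1}.Finite := by
  classical
  have hm : (X ^ n - 1 : ℤ[X]).Monic := monic_X_pow_sub_C 1 hn.ne'
  have hfin : {g : ℤ[X] | g.Monic ∧ g ∣ X ^ n - 1}.Finite := by
    have h : Finite {g : ℤ[X] // g.Monic ∧ g ∣ X ^ n - 1} :=
      @Finite.of_fintype _ (Polynomial.fintypeSubtypeMonicDvd (X ^ n - 1 : ℤ[X]) hm.ne_zero)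
    exact h
  refine (hfin.union (hfin.image (fun g => -g))).subset ?_
  intro f hf
  obtain ⟨q, hq⟩ := hf
  have h1 : f.leadingCoeff * q.leadingCoeff = 1 := by
    rw [← leadingCoeff_mul, ← hq]
    exact hm
  rcases Int.eq_one_or_neg_one_of_mul_eq_one h1 with h2 | h2
  · exact Or.inl ⟨h2, q, hq⟩
  · refine Or.inr ⟨-f, ⟨?_, ?_⟩, neg_neg f⟩
    · show (-f).leadingCoeff = 1
      rw [leadingCoeff_neg, h2, neg_neg]
    · rw [neg_dvd]
      exact ⟨q, hq⟩

theorem height_le_B (n : ℕ) (hn : 0 < n) (f : ℤ[X]) (hf : f ∣ X ^ n - 1) : height f ≤ B n := by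
  apply le_csSup
  · apply Set.Finite.bddAbove
    have : {h : ℕ | ∃ f : ℤ[X], f ∣ X ^ n - 1 ∧ h = height f} =
        height '' {f : ℤ[X] | f ∣ X ^ n - 1} := by
      ext h
      constructor
      · rintro ⟨f, h1, rfl⟩
        exact ⟨f, h1, rfl⟩
      · rintro ⟨f, h1, rfl⟩
        exact ⟨f, h1, rfl⟩
    rw [this]
    exact (finite_dvd n hn).image _
  · exact ⟨f, hf, rfl⟩

theorem big (n : ℕ) (hn : n = 8014561) :
    ∃ f : ℤ[X], f ∣ X ^ n - 1 ∧ 835 ≤ height f := by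
  subst hn
  refine ⟨_, Pool.Agent.R877.CY.K2.f_dvd, ?_⟩
  have h1 := le_height (Pool.Agent.R877.CY.F1 19 149 * Pool.Agent.R877.CY.K2.Ph 8014561) 1456798
  rw [Pool.Agent.R877.CY.K2.coeff_f] at h1
  exact h1

theorem final (p q n : ℕ) (hp : p.Prime) (hq : q.Prime) (hpq : p < q) (hn : n = p ^ 2 * q ^ 2)
    (h1 : height (F₁ p q) ≤ 834) (h2 : height (F₂ p q) ≤ 834)
    (h3 : ∃ f : ℤ[X], f ∣ X ^ n - 1 ∧ 835 ≤ height f) :
    (∃ f : ℤ[X], f ∣ X ^ (p ^ 2 * q ^ 2) - 1 ∧ height (F₁ p q) < height f ∧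
      height (F₂ p q) < height f) ∧
    max (height (F₁ p q)) (height (F₂ p q)) < B (p ^ 2 * q ^ 2) ∧
    ¬ ∀ p q : ℕ, p.Prime → q.Prime → p < q →
      B (p ^ 2 * q ^ 2) = max (height (F₁ p q)) (height (F₂ p q)) := by
  subst hn
  obtain ⟨f, hf, h4⟩ := h3
  have hpos : 0 < p ^ 2 * q ^ 2 := by
    have := hp.pos
    have := hq.pos
    positivity
  have h5 := height_le_B _ hpos f hf
  have h6 : max (height (F₁ p q)) (height (F₂ p q)) < B (p ^ 2 * q ^ 2) := by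
    rw [max_lt_iff]
    constructor <;> omega
  refine ⟨⟨f, hf, by omega, by omega⟩, h6, ?_⟩
  intro H
  exact absurd (H p q hp hq hpq) h6.ne'

/-- For the primes `p = 19`, `q = 149` some divisor of `x ^ (p²q²) - 1` has a larger height than
both `Φ_p Φ_q Φ_{p²q} Φ_{pq²}` and `Φ_p Φ_q Φ_{p²} Φ_{q²}`; so `B(p²q²)` is larger than the maximum of
the two heights, and the formula `B(p²q²) = max` fails. -/
theorem result :
    (∃ f : ℤ[X], f ∣ X ^ (19 ^ 2 * 149 ^ 2) - 1 ∧ height (F₁ 19 149) < height f ∧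
      height (F₂ 19 149) < height f) ∧
    max (height (F₁ 19 149)) (height (F₂ 19 149)) < B (19 ^ 2 * 149 ^ 2) ∧
    ¬ ∀ p q : ℕ, p.Prime → q.Prime → p < q →
      B (p ^ 2 * q ^ 2) = max (height (F₁ p q)) (height (F₂ p q)) := by
  have h1 : height (F₁ 19 149) ≤ 834 := height_le _ _ fun i =>
    Nat.le_of_lt_succ (Pool.Agent.R877.CY.K2.F1_le i)
  have h2 : height (F₂ 19 149) ≤ 834 := height_le _ _ fun i =>
    Nat.le_of_lt_succ (Pool.Agent.R877.CY.K2.F2_le i)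
  exact final 19 149 8014561 (by norm_num) (by norm_num) (by norm_num) (by norm_num) h1 h2
    (big _ rfl)

end Pool.Agent.Results.MP_72c16c_nt.DisproofAt19And149
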